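import Mathlib
import Pool.Agent.Q154.Multinom

/-!
# The Sidon defect of the set of multinomial coefficients has the order of magnitude of `M(n)`

`Mset n` (from the imported file) is the set of values `n! / (p₁! ⋯ p_t!)` over partitions of `n`.
-/

namespace Pool.Agent.Results.MP_0896da_co.OrderIsM

open Finset Filter Asymptotics Q154.Multinom
open scoped Nat

/-- `M(n)`, the number of distinct multinomial coefficients with upper entry `n`. -/
def M (n : ℕ) : ℕ := (Mset n).card

/-- Sidon sets: `x + y = u + v` forces `{x, y} = {u, v}`. -/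
def IsSidon (S : Finset ℕ) : Prop :=
  ∀ x ∈ S, ∀ y ∈ S, ∀ u ∈ S, ∀ v ∈ S, x + y = u + v → ({x, y} : Finset ℕ) = {u, v}

open Classical in
/-- the largest size of a Sidon subset of `Mset n` -/
noncomputable def s (n : ℕ) : ℕ :=
  ((Mset n).powerset.filter fun S => IsSidon S).sup Finset.card

/-- the set of the products of factorials -/
def Pset (n : ℕ) : Finset ℕ :=
  (Finset.univ : Finset (Nat.Partition n)).image fun p => (p.parts.map Nat.factorial).prod

theorem mem_Pset_pos {n x : ℕ} (h : x ∈ Pset n) :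
    ∃ q : Multiset ℕ, q.sum = n ∧ (∀ i ∈ q, 0 < i) ∧ (q.map Nat.factorial).prod = x := by
  obtain ⟨p, -, rfl⟩ := Finset.mem_image.1 h
  exact ⟨p.parts, p.parts_sum, fun i hi => p.parts_pos hi, rfl⟩

theorem mem_Pset_of {n x : ℕ} (q : Multiset ℕ) (h1 : q.sum = n)
    (h2 : (q.map Nat.factorial).prod = x) : x ∈ Pset n := by
  refine Finset.mem_image.2 ⟨Nat.Partition.ofSums n q h1, Finset.mem_univ _, ?_⟩
  have h3 : (Nat.Partition.ofSums n q h1).parts = q.filter (· ≠ 0) := rfl
  rw [h3, fac_filter, h2]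

theorem dvd_of_mem {n x : ℕ} (h : x ∈ Pset n) : x ∣ n ! := by
  obtain ⟨q, h1, -, rfl⟩ := mem_Pset_pos h
  rw [← h1]
  exact fac_dvd q

theorem pos_of_mem_P {n x : ℕ} (h : x ∈ Pset n) : 0 < x :=
  Nat.pos_of_dvd_of_pos (dvd_of_mem h) (Nat.factorial_pos n)

theorem card_Pset (n : ℕ) : (Pset n).card = M n := by
  have h1 : Mset n = (Pset n).image (fun x => n ! / x) := by
    unfold Mset Pset
    rw [Finset.image_image]
    rfl
  rw [M, h1, Finset.card_image_of_injOn]
  intro x hx y hy hxy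
  have hx' := dvd_of_mem (Finset.mem_coe.1 hx)
  have hy' := dvd_of_mem (Finset.mem_coe.1 hy)
  have e1 := Nat.div_div_self hx' (Nat.factorial_pos n).ne'
  have e2 := Nat.div_div_self hy' (Nat.factorial_pos n).ne'
  simp only at hxy
  rw [← e1, ← e2, hxy]

theorem Pset_mono (n : ℕ) : Pset n ⊆ Pset (n + 1) := by
  intro x hx
  obtain ⟨q, h1, -, h3⟩ := mem_Pset_pos hx
  refine mem_Pset_of (1 ::ₘ q) ?_ ?_
  · rw [Multiset.sum_cons, h1]; ring
  · rw [Multiset.map_cons, Multiset.prod_cons, h3]; simp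

/-- the new products -/
def D : ℕ → Finset ℕ
  | 0 => Pset 0
  | n + 1 => Pset (n + 1) \ Pset n

theorem sum_card_D (n : ℕ) : ∑ m ∈ range (n + 1), (D m).card = (Pset n).card := by
  induction n with
  | zero => simp [D]
  | succ n ih =>
    rw [Finset.sum_range_succ, ih]
    have := Finset.card_sdiff_add_card_eq_card (Pset_mono n)
    simp only [D]
    omega

theorem mem_D_of {m x : ℕ} (h1 : x ∈ Pset m) (h2 : ∀ k, m = k + 1 → x ∉ Pset k) : x ∈ D m := by
  cases m with
  | zero => exact h1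
  | succ k => exact Finset.mem_sdiff.2 ⟨h1, h2 k rfl⟩

theorem growth (n : ℕ) : (Pset (n + 2)).card ≤ (Pset (n + 1)).card + (Pset n).card := by
  have hsub : Pset (n + 2) \ Pset (n + 1) ⊆
      (range (n + 1)).biUnion (fun m => (D m).image (fun w => (n + 2 - m)! * w)) := by
    intro v hv
    obtain ⟨hv1, hv2⟩ := Finset.mem_sdiff.1 hv
    obtain ⟨q, h1, h2, h3⟩ := mem_Pset_pos hv1
    have hne : q ≠ 0 := by
      rintro rfl
      simp at h1
    obtain ⟨j, hj⟩ := Multiset.exists_mem_of_ne_zero hne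
    have hcons := Multiset.cons_erase hj
    have hsum : j + (q.erase j).sum = n + 2 := by
      rw [← Multiset.sum_cons, hcons, h1]
    have hprod : j ! * ((q.erase j).map Nat.factorial).prod = v := by
      rw [← Multiset.prod_cons, ← Multiset.map_cons, hcons, h3]
    have hj0 := h2 j hj
    have hj1 : j ≠ 1 := by
      rintro rfl
      exact hv2 (mem_Pset_of (q.erase 1) (by omega) (by simpa using hprod))
    rw [Finset.mem_biUnion]
    refine ⟨(q.erase j).sum, Finset.mem_range.2 (by omega), ?_⟩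
    rw [Finset.mem_image]
    refine ⟨((q.erase j).map Nat.factorial).prod, ?_, ?_⟩
    · refine mem_D_of (mem_Pset_of _ rfl rfl) ?_
      intro k hk hmem
      obtain ⟨q', e1, -, e3⟩ := mem_Pset_pos hmem
      refine hv2 (mem_Pset_of (j ::ₘ q') ?_ ?_)
      · rw [Multiset.sum_cons, e1]; omega
      · rw [Multiset.map_cons, Multiset.prod_cons, e3, hprod]
    · have : n + 2 - (q.erase j).sum = j := by omega
      rw [this, hprod]
  have hc : (Pset (n + 2) \ Pset (n + 1)).card ≤ (Pset n).card := by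
    refine (Finset.card_le_card hsub).trans (Finset.card_biUnion_le.trans ?_)
    rw [← sum_card_D n]
    exact Finset.sum_le_sum (fun m _ => Finset.card_image_le)
  have h : (Pset (n + 2) \ Pset (n + 1)).card + (Pset (n + 1)).card = (Pset (n + 2)).card :=
    Finset.card_sdiff_add_card_eq_card (Pset_mono (n + 1))
  omega

theorem M_le (n : ℕ) : M (n + 5) ≤ 13 * M n := by
  have hz : ∀ n, M (n + 2) ≤ M (n + 1) + M n := fun n => by
    rw [← card_Pset, ← card_Pset, ← card_Pset]; exact growth n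
  have hm : ∀ n, M n ≤ M (n + 1) := fun n => by
    rw [← card_Pset, ← card_Pset]; exact Finset.card_le_card (Pset_mono n)
  have g0 := hz n
  have g1 := hz (n + 1)
  have g2 := hz (n + 2)
  have g3 := hz (n + 3)
  have gm : M (n + 1) ≤ 2 * M n := by
    cases n with
    | zero =>
      have : M 1 ≤ 1 := by
        rw [← card_Pset]
        refine (Finset.card_image_le).trans ?_
        decide
      have h1 : 1 ≤ M 0 := by
        rw [← card_Pset]
        exact Finset.card_pos.2 ⟨1, mem_Pset_of 0 rfl rfl⟩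
      simp only [zero_add]
      omega
    | succ n =>
      have k1 : M (n + 1 + 1) ≤ M (n + 1) + M n := hz n
      have k2 := hm n
      clear g0 g1 g2 g3
      omega
  change M (n + 3) ≤ M (n + 2) + M (n + 1) at g1
  change M (n + 4) ≤ M (n + 3) + M (n + 2) at g2
  change M (n + 5) ≤ M (n + 4) + M (n + 3) at g3
  generalize M (n + 5) = x5 at *
  generalize M (n + 4) = x4 at *
  generalize M (n + 3) = x3 at *
  generalize M (n + 2) = x2 at *
  generalize M (n + 1) = x1 at *
  generalize M n = x0 at *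
  clear hz hm
  omega

/-- The defect of every Sidon subset. -/
theorem defect (n : ℕ) (S : Finset ℕ) (hS : S ⊆ Mset (n + 5)) (hSidon : IsSidon S) :
    M n ≤ 3 * (M (n + 5) - S.card) := by
  classical
  set T := Mset (n + 5) \ S with hT
  have hTc : T.card = M (n + 5) - S.card := Finset.card_sdiff_of_subset hS
  have hcover : Pset n ⊆ ({12, 6, 4} : Finset ℕ).biUnion
      (fun c => T.image (fun x => (n + 5)! / x / c)) := by
    intro w hw
    obtain ⟨q, h1, -, h3⟩ := mem_Pset_pos hw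
    have hw0 := pos_of_mem_P hw
    have m12 : 12 * w ∈ Pset (n + 5) := mem_Pset_of (3 ::ₘ 2 ::ₘ q)
      (by simp only [Multiset.sum_cons, h1]; ring)
      (by simp only [Multiset.map_cons, Multiset.prod_cons, h3, Nat.factorial]; ring)
    have m6 : 6 * w ∈ Pset (n + 5) := mem_Pset_of (3 ::ₘ 1 ::ₘ 1 ::ₘ q)
      (by simp only [Multiset.sum_cons, h1]; ring)
      (by simp only [Multiset.map_cons, Multiset.prod_cons, h3, Nat.factorial]; ring)
    have m4 : 4 * w ∈ Pset (n + 5) := mem_Pset_of (2 ::ₘ 2 ::ₘ 1 ::ₘ q)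
      (by simp only [Multiset.sum_cons, h1]; ring)
      (by simp only [Multiset.map_cons, Multiset.prod_cons, h3, Nat.factorial]; ring)
    have key : ∀ c x, c * w ∈ Pset (n + 5) → x * (c * w) = (n + 5)! → x ∈ Mset (n + 5) := by
      intro c x hc hx
      obtain ⟨q', e1, -, e3⟩ := mem_Pset_pos hc
      exact mem_Mset.2 ⟨q', e1, by rw [e3, hx]⟩
    obtain ⟨a, ha⟩ := dvd_of_mem m12
    have ha0 : 0 < a := by
      rcases Nat.eq_zero_or_pos a with h | h
      · rw [h, mul_zero] at ha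
        exact absurd ha (Nat.factorial_pos _).ne'
      · exact h
    have x1 := key 12 a m12 (by rw [ha]; ring)
    have x2 := key 6 (2 * a) m6 (by rw [ha]; ring)
    have x3 := key 4 (3 * a) m4 (by rw [ha]; ring)
    have hnot : ¬ (a ∈ S ∧ 2 * a ∈ S ∧ 3 * a ∈ S) := by
      rintro ⟨y1, y2, y3⟩
      have := hSidon a y1 (3 * a) y3 (2 * a) y2 (2 * a) y2 (by ring)
      have h5 : a ∈ ({2 * a, 2 * a} : Finset ℕ) := by rw [← this]; simp
      simp only [Finset.mem_insert, Finset.mem_singleton, or_self] at h5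
      omega
    have fin : ∀ c x, c * w ∈ Pset (n + 5) → x * (c * w) = (n + 5)! → 0 < c → 0 < x →
        (n + 5)! / x / c = w := by
      intro c x _ hx hc hx0
      rw [← hx, Nat.mul_div_cancel_left _ hx0, Nat.mul_div_cancel_left _ hc]
    rw [Finset.mem_biUnion]
    by_cases z1 : a ∈ S
    · by_cases z2 : 2 * a ∈ S
      · have z3 : 3 * a ∉ S := fun h => hnot ⟨z1, z2, h⟩
        exact ⟨4, by simp, Finset.mem_image.2 ⟨3 * a, Finset.mem_sdiff.2 ⟨x3, z3⟩,
          fin 4 (3 * a) m4 (by rw [ha]; ring) (by norm_num) (by omega)⟩⟩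
      · exact ⟨6, by simp, Finset.mem_image.2 ⟨2 * a, Finset.mem_sdiff.2 ⟨x2, z2⟩,
          fin 6 (2 * a) m6 (by rw [ha]; ring) (by norm_num) (by omega)⟩⟩
    · exact ⟨12, by simp, Finset.mem_image.2 ⟨a, Finset.mem_sdiff.2 ⟨x1, z1⟩,
          fin 12 a m12 (by rw [ha]; ring) (by norm_num) ha0⟩⟩
  have h1 := (Finset.card_le_card hcover).trans Finset.card_biUnion_le
  have h2 : ∑ c ∈ ({12, 6, 4} : Finset ℕ), (T.image (fun x => (n + 5)! / x / c)).card ≤
      ∑ _c ∈ ({12, 6, 4} : Finset ℕ), T.card :=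
    Finset.sum_le_sum (fun c _ => Finset.card_image_le)
  have h3 : ∑ _c ∈ ({12, 6, 4} : Finset ℕ), T.card = 3 * T.card := by
    rw [Finset.sum_const]
    rfl
  rw [← card_Pset n, ← hTc]
  omega

theorem s_spec (n : ℕ) : ∃ S, S ⊆ Mset n ∧ IsSidon S ∧ S.card = s n := by
  classical
  have hne : ((Mset n).powerset.filter fun S => IsSidon S).Nonempty := by
    refine ⟨∅, Finset.mem_filter.2 ⟨Finset.mem_powerset.2 (Finset.empty_subset _), ?_⟩⟩
    intro x hx
    simp at hx
  obtain ⟨S, hS, hS2⟩ := Finset.exists_mem_eq_sup _ hne Finset.card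
  rw [Finset.mem_filter, Finset.mem_powerset] at hS
  refine ⟨S, hS.1, hS.2, ?_⟩
  rw [← hS2, s]

theorem final_ineq (a b c : ℕ) (h4 : a ≤ 3 * (b - c)) (h5 : b ≤ 13 * a) (h6 : c ≤ b) :
    (b : ℝ) / 39 ≤ (b : ℝ) - c ∧ (b : ℝ) - c ≤ b := by
  have h7 : b ≤ 39 * (b - c) := by omega
  have h8 : (b : ℝ) ≤ 39 * ((b : ℝ) - c) := by
    rw [← Nat.cast_sub h6]
    exact_mod_cast h7
  refine ⟨by linarith, ?_⟩
  have : (0 : ℝ) ≤ c := by positivity
  linarith

/-- The order of magnitude of the Sidon defect `M(n) - s(n)` is `M(n)`: explicitly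
`M(n)/39 ≤ M(n) - s(n) ≤ M(n)` for all `n ≥ 5`. -/
theorem result :
    (∀ n : ℕ, 5 ≤ n → (M n : ℝ) / 39 ≤ (M n : ℝ) - s n ∧ (M n : ℝ) - s n ≤ M n) ∧
    (fun n : ℕ => (M n : ℝ) - s n) =Θ[atTop] (fun n : ℕ => (M n : ℝ)) := by
  have main : ∀ n : ℕ, 5 ≤ n →
      (M n : ℝ) / 39 ≤ (M n : ℝ) - s n ∧ (M n : ℝ) - s n ≤ M n := by
    intro n hn
    obtain ⟨m, rfl⟩ : ∃ m, n = m + 5 := ⟨n - 5, by omega⟩
    obtain ⟨S, h1, h2, h3⟩ := s_spec (m + 5)
    have h4 := defect m S h1 h2
    have h5 := M_le m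
    have h6 : S.card ≤ M (m + 5) := Finset.card_le_card h1
    rw [h3] at h4 h6
    exact final_ineq _ _ _ h4 h5 h6
  refine ⟨main, ?_, ?_⟩
  · refine IsBigO.of_bound 1 ?_
    filter_upwards [eventually_ge_atTop 5] with n hn
    obtain ⟨h1, h2⟩ := main n hn
    have h0 : (0 : ℝ) ≤ M n := by positivity
    rw [Real.norm_of_nonneg (by linarith), Real.norm_of_nonneg h0]
    linarith
  · refine IsBigO.of_bound 39 ?_
    filter_upwards [eventually_ge_atTop 5] with n hn
    obtain ⟨h1, h2⟩ := main n hn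
    have h0 : (0 : ℝ) ≤ M n := by positivity
    rw [Real.norm_of_nonneg (by linarith : (0 : ℝ) ≤ (M n : ℝ) - s n), Real.norm_of_nonneg h0]
    linarith

end Pool.Agent.Results.MP_0896da_co.OrderIsM
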